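import Mathlib.Algebra.CharP.Basic
import Mathlib.Algebra.CharP.Defs
import Mathlib.LinearAlgebra.Matrix.Defs
import Mathlib.Data.Matrix.Mul
import Mathlib.Algebra.Group.Subgroup.Defs
import Mathlib.Data.Set.Finite.Basic
import Mathlib.GroupTheory.Perm.Basic

/-!
Generalised Hadamard matrices, jacket matrices, jacket width, primary jacket matrices.
Matrices with unit entries are functions `Fin v → Fin v → Rˣ`; rows and columns are numbered
`0, ..., v-1`.
-/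

namespace Q155.Jacket

/-- `M` is a `GBH(N, v)` matrix: `v ≥ 2`, the characteristic of `R` does not divide `v`, the
entries lie in `N`, and `M M^* = M^* M = v I`, where `(M^*)_{ij} = (m_{ji})⁻¹`. -/
def IsGBH {R : Type} [Ring R] (N : Subgroup Rˣ) {v : ℕ} (M : Fin v → Fin v → Rˣ) : Prop :=
  2 ≤ v ∧ ¬ (ringChar R ∣ v) ∧ (∀ i j, M i j ∈ N) ∧
    (∀ i j, ∑ k, (M i k : R) * ((M j k)⁻¹ : Rˣ) = if i = j then (v : R) else 0) ∧
    (∀ i j, ∑ k, ((M k i)⁻¹ : Rˣ) * (M k j : R) = if i = j then (v : R) else 0)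

/-- The first row and the first column consist of ones. -/
def FirstOnes {R : Type} [Ring R] {v : ℕ} (M : Fin v → Fin v → Rˣ) : Prop :=
  ∀ i j : Fin v, (i.val = 0 ∨ j.val = 0) → M i j = 1

/-- Permutation equivalence. -/
def PermEquiv {R : Type} [Ring R] {v : ℕ} (M M' : Fin v → Fin v → Rˣ) : Prop :=
  ∃ σ τ : Equiv.Perm (Fin v), ∀ i j, M' i j = M (σ i) (τ j)

/-- `M` has first row and column all ones, and its rows and columns with (zero-based) indices in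
`{0, ..., m-1} ∪ {v-m, ..., v-1}` are entirely in `{1, -1}`. -/
def Bordered {R : Type} [Ring R] {v : ℕ} (M : Fin v → Fin v → Rˣ) (m : ℕ) : Prop :=
  FirstOnes M ∧ ∀ i j : Fin v, (i.val < m ∨ v ≤ i.val + m ∨ j.val < m ∨ v ≤ j.val + m) →
    (M i j = 1 ∨ M i j = -1)

/-- Jacket matrices: normalised `GBH(N, v)` matrices that are permutation equivalent to a matrix
whose first row and column are all ones and whose last row and column are in `{1, -1}`. -/
def IsJacket {R : Type} [Ring R] (N : Subgroup Rˣ) {v : ℕ} (K : Fin v → Fin v → Rˣ) : Prop :=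
  IsGBH N K ∧ FirstOnes K ∧ ∃ K' : Fin v → Fin v → Rˣ, PermEquiv K K' ∧ Bordered K' 1

/-- The jacket width of `K` is `w`: the largest `m ≥ 1` (with `2 m ≤ v`) for which some matrix
permutation equivalent to `K` is bordered of width `m`. -/
def HasWidth {R : Type} [Ring R] {v : ℕ} (K : Fin v → Fin v → Rˣ) (w : ℕ) : Prop :=
  1 ≤ w ∧ 2 * w ≤ v ∧ (∃ K' : Fin v → Fin v → Rˣ, PermEquiv K K' ∧ Bordered K' w) ∧
    ∀ m, 2 * m ≤ v → (∃ K' : Fin v → Fin v → Rˣ, PermEquiv K K' ∧ Bordered K' m) → m ≤ w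

/-- `K` is permutation equivalent to the Kronecker product of `K₁` and `K₂`. -/
def EquivKronecker {R : Type} [Ring R] {v v₁ v₂ : ℕ} (K : Fin v → Fin v → Rˣ)
    (K₁ : Fin v₁ → Fin v₁ → Rˣ) (K₂ : Fin v₂ → Fin v₂ → Rˣ) : Prop :=
  ∃ e f : Fin v ≃ Fin v₁ × Fin v₂, ∀ i j, K i j = K₁ (e i).1 (f j).1 * K₂ (e i).2 (f j).2

/-- Primary jacket matrices. -/
def IsPrimary {R : Type} [Ring R] (N : Subgroup Rˣ) {v : ℕ} (K : Fin v → Fin v → Rˣ) : Prop :=
  IsJacket N K ∧ ∀ (v₁ v₂ : ℕ) (K₁ : Fin v₁ → Fin v₁ → Rˣ) (K₂ : Fin v₂ → Fin v₂ → Rˣ),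
    IsJacket N K₁ → IsJacket N K₂ → ¬ EquivKronecker K K₁ K₂

/-- `w` is admissible for `n`. -/
def Admissible (n w : ℕ) : Prop :=
  1 ≤ w ∧ ((Even n ∧ w ≤ n) ∨ (Odd n ∧ w ≤ n - 1))

/-- Property (F) of the pair `(R, N)`. -/
def PropertyF {R : Type} [Ring R] (N : Subgroup Rˣ) : Prop :=
  {n : ℕ | ∀ w, Admissible n w →
    ∃ K : Fin (2 * n) → Fin (2 * n) → Rˣ, IsPrimary N K ∧ HasWidth K w}.Infinite

end Q155.Jacket
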