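import Mathlib
import Pool.Agent.Q155.Jacket.Defs

open Finset

namespace Q155.Jacket

/-- the unit `2` of `ZMod 5` -/
def two : (ZMod 5)ˣ := ⟨2, 3, by decide, by decide⟩

/-- block multiplier -/
def blk (w b : ℕ) : (ZMod 5)ˣ := if b < w then -1 else two

/-- unnormalised matrix -/
def Mn (w i j : ℕ) : (ZMod 5)ˣ :=
  if i / 2 = j / 2 then (if i = j then blk w (i / 2) else -blk w (i / 2)) else 1

/-- normalised matrix -/
def Kn (w i j : ℕ) : (ZMod 5)ˣ := if i = 0 ∨ j = 0 then 1 else -Mn w i j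

def rr (i : ℕ) : (ZMod 5)ˣ := if i = 0 then 1 else -1

theorem Mn_symm (w i j : ℕ) : Mn w i j = Mn w j i := by
  unfold Mn
  by_cases h : i / 2 = j / 2
  · rw [if_pos h, if_pos h.symm]
    by_cases h2 : i = j
    · subst h2; rfl
    · rw [if_neg h2, if_neg (Ne.symm h2), h]
  · rw [if_neg h, if_neg (Ne.symm h)]

theorem Kn_symm (w i j : ℕ) : Kn w i j = Kn w j i := by
  unfold Kn
  rw [Mn_symm w i j]
  by_cases h : i = 0 ∨ j = 0
  · rw [if_pos h, if_pos h.symm]
  · rw [if_neg h, if_neg (fun h' => h h'.symm)]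

theorem Kn_eq {w : ℕ} (hw : 1 ≤ w) (i k : ℕ) : Kn w i k = rr i * Mn w i k * (-rr k) := by
  have hb : blk w 0 = -1 := by unfold blk; rw [if_pos (by omega)]
  have h0 : ∀ k, Mn w 0 k = if k = 0 then -1 else 1 := by
    intro k
    unfold Mn
    by_cases h1 : 0 / 2 = k / 2
    · rw [if_pos h1]
      have e : (0 : ℕ) / 2 = 0 := rfl
      rw [e, hb]
      by_cases h2 : 0 = k
      · rw [if_pos h2, if_pos h2.symm]
      · rw [if_neg h2, if_neg (Ne.symm h2), neg_neg]
    · rw [if_neg h1, if_neg]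
      rintro rfl; exact h1 rfl
  unfold Kn rr
  by_cases hi : i = 0
  · subst hi
    rw [if_pos (Or.inl rfl), if_pos rfl, h0]
    by_cases hk : k = 0
    · rw [if_pos hk, if_pos hk]; simp
    · rw [if_neg hk, if_neg hk]; simp
  · by_cases hk : k = 0
    · subst hk
      rw [if_pos (Or.inr rfl), if_neg hi, if_pos rfl, Mn_symm, h0, if_neg hi]; simp
    · rw [if_neg (by tauto), if_neg hi, if_neg hk]; simp

theorem sum_range_double (f : ℕ → ZMod 5) (n : ℕ) :
    ∑ k ∈ range (2 * n), f k = ∑ b ∈ range n, (f (2 * b) + f (2 * b + 1)) := by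
  induction n with
  | zero => simp
  | succ n ih =>
    have e : 2 * (n + 1) = 2 * n + 1 + 1 := by ring
    rw [e, sum_range_succ, sum_range_succ, ih, sum_range_succ]
    ring

theorem term_eq (w i j b : ℕ) (hij : i ≠ j) :
    ((Mn w i (2 * b) : ZMod 5) * ((Mn w j (2 * b))⁻¹ : (ZMod 5)ˣ)
      + (Mn w i (2 * b + 1) : ZMod 5) * ((Mn w j (2 * b + 1))⁻¹ : (ZMod 5)ˣ))
    = 2 - (if b = i / 2 then 2 else 0) - (if b = j / 2 then 2 else 0) := by
  have hb0 : (2 * b) / 2 = b := by omega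
  have hb1 : (2 * b + 1) / 2 = b := by omega
  have hc : ∀ c : (ZMod 5)ˣ, (c : ZMod 5) * (c⁻¹ : (ZMod 5)ˣ) = 1 := fun c => Units.mul_inv c
  unfold Mn
  rw [hb0, hb1]
  generalize hc' : blk w (i / 2) = c
  generalize hd' : blk w (j / 2) = d
  by_cases h1 : i / 2 = b
  · by_cases h2 : j / 2 = b
    · have hcd : c = d := by rw [← hc', ← hd', h1, h2]
      subst hcd
      rw [if_pos h1, if_pos h2, if_pos h1, if_pos h2, if_pos h1.symm, if_pos h2.symm]
      rcases (show i = 2 * b ∨ i = 2 * b + 1 by omega) with h3 | h3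
      · have h4 : j = 2 * b + 1 := by omega
        rw [if_pos h3, if_neg (by omega), if_neg (by omega), if_pos h4]
        have := hc c
        simp only [inv_neg, Units.val_neg, mul_neg, neg_mul]
        rw [this]; decide
      · have h4 : j = 2 * b := by omega
        rw [if_neg (by omega), if_pos h4, if_pos h3, if_neg (by omega)]
        have := hc c
        simp only [inv_neg, Units.val_neg, mul_neg, neg_mul]
        rw [this]; decide
    · rw [if_pos h1, if_neg h2, if_pos h1, if_neg h2, if_pos h1.symm, if_neg (Ne.symm h2)]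
      rcases (show i = 2 * b ∨ i = 2 * b + 1 by omega) with h3 | h3
      · rw [if_pos h3, if_neg (by omega)]; simp
      · rw [if_neg (by omega), if_pos h3]; simp
  · by_cases h2 : j / 2 = b
    · rw [if_neg h1, if_pos h2, if_neg h1, if_pos h2, if_neg (Ne.symm h1), if_pos h2.symm]
      rcases (show j = 2 * b ∨ j = 2 * b + 1 by omega) with h3 | h3
      · rw [if_pos h3, if_neg (by omega)]
        simp only [inv_neg, Units.val_neg, Units.val_one, one_mul]
        ring
      · rw [if_neg (by omega), if_pos h3]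
        simp only [inv_neg, Units.val_neg, Units.val_one, one_mul]
        ring
    · rw [if_neg h1, if_neg h2, if_neg h1, if_neg h2, if_neg (Ne.symm h1), if_neg (Ne.symm h2)]
      norm_num

theorem sum_Mn {n : ℕ} (hn : n % 5 = 2) (w i j : ℕ) (hi : i < 2 * n) (hj : j < 2 * n)
    (hij : i ≠ j) :
    ∑ k ∈ range (2 * n), (Mn w i k : ZMod 5) * ((Mn w j k)⁻¹ : (ZMod 5)ˣ) = 0 := by
  rw [sum_range_double (fun k => (Mn w i k : ZMod 5) * ((Mn w j k)⁻¹ : (ZMod 5)ˣ))]
  rw [sum_congr rfl fun b _ => term_eq w i j b hij]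
  rw [sum_sub_distrib, sum_sub_distrib, sum_ite_eq', sum_ite_eq', if_pos, if_pos]
  · simp only [sum_const, card_range, nsmul_eq_mul]
    obtain ⟨q, hq⟩ : ∃ q, n = 5 * q + 2 := ⟨n / 5, by omega⟩
    rw [hq]
    push_cast
    have : (5 : ZMod 5) = 0 := by decide
    rw [this]
    ring_nf
  · rw [mem_range]; omega
  · rw [mem_range]; omega

theorem sum_Kn {n : ℕ} (hn : n % 5 = 2) {w : ℕ} (hw : 1 ≤ w) (i j : ℕ) (hi : i < 2 * n)
    (hj : j < 2 * n) :
    ∑ k ∈ range (2 * n), (Kn w i k : ZMod 5) * ((Kn w j k)⁻¹ : (ZMod 5)ˣ)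
      = if i = j then ((2 * n : ℕ) : ZMod 5) else 0 := by
  by_cases hij : i = j
  · subst hij
    rw [if_pos rfl]
    rw [sum_congr rfl fun k _ => Units.mul_inv _]
    simp
  · rw [if_neg hij]
    have h : ∀ k, (Kn w i k : ZMod 5) * ((Kn w j k)⁻¹ : (ZMod 5)ˣ)
        = ((rr i * (rr j)⁻¹ : (ZMod 5)ˣ) : ZMod 5) *
          ((Mn w i k : ZMod 5) * ((Mn w j k)⁻¹ : (ZMod 5)ˣ)) := by
      intro k
      rw [Kn_eq hw, Kn_eq hw]
      rw [← Units.val_mul, ← Units.val_mul, ← Units.val_mul]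
      congr 1
      rw [mul_inv, mul_inv]
      have : (-rr k) * (-rr k)⁻¹ = 1 := mul_inv_cancel _
      calc rr i * Mn w i k * -rr k * ((rr j)⁻¹ * (Mn w j k)⁻¹ * (-rr k)⁻¹)
          = rr i * Mn w i k * ((rr j)⁻¹ * (Mn w j k)⁻¹) * (-rr k * (-rr k)⁻¹) := by
            rw [mul_mul_mul_comm]
        _ = rr i * (rr j)⁻¹ * (Mn w i k * (Mn w j k)⁻¹) := by
            rw [this, mul_one, mul_mul_mul_comm]
    rw [sum_congr rfl fun k _ => h k, ← mul_sum, sum_Mn hn w i j hi hj hij, mul_zero]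

/-- the matrix on `Fin (2n)` -/
def Kf (n w : ℕ) : Fin (2 * n) → Fin (2 * n) → (ZMod 5)ˣ := fun i j => Kn w i.val j.val

theorem isGBH {n : ℕ} (hn : n % 5 = 2) {w : ℕ} (hw : 1 ≤ w) :
    IsGBH (⊤ : Subgroup (ZMod 5)ˣ) (Kf n w) := by
  refine ⟨by omega, ?_, fun _ _ => Subgroup.mem_top _, ?_, ?_⟩
  · rw [ZMod.ringChar_zmod_n]; omega
  · intro i j
    have h := sum_Kn hn hw i.val j.val i.isLt j.isLt
    rw [← Fin.sum_univ_eq_sum_range
      (fun k => (Kn w i.val k : ZMod 5) * ((Kn w j.val k)⁻¹ : (ZMod 5)ˣ))] at h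
    unfold Kf
    rw [h]
    simp only [Fin.ext_iff]
  · intro i j
    have h := sum_Kn hn hw j.val i.val j.isLt i.isLt
    rw [← Fin.sum_univ_eq_sum_range
      (fun k => (Kn w j.val k : ZMod 5) * ((Kn w i.val k)⁻¹ : (ZMod 5)ˣ))] at h
    unfold Kf
    rw [sum_congr rfl (g := fun k : Fin (2 * n) =>
      (Kn w j.val k.val : ZMod 5) * ((Kn w i.val k.val)⁻¹ : (ZMod 5)ˣ)), h]
    · simp only [Fin.ext_iff]
      by_cases hij : j.val = i.val
      · rw [if_pos hij, if_pos hij.symm]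
      · rw [if_neg hij, if_neg (Ne.symm hij)]
    · intro k _
      rw [mul_comm, Kn_symm w k.val i.val, Kn_symm w k.val j.val]

theorem firstOnes (n w : ℕ) : FirstOnes (Kf n w) := by
  intro i j h
  unfold Kf Kn
  rw [if_pos h]

theorem Bordered.mono {R : Type} [Ring R] {v : ℕ} {M : Fin v → Fin v → Rˣ} {m m' : ℕ}
    (h : Bordered M m) (hm : m' ≤ m) : Bordered M m' :=
  ⟨h.1, fun i j hij => h.2 i j (by omega)⟩

/-- entries of real rows -/
theorem Kn_real {w i : ℕ} (hi : i < 2 * w) (j : ℕ) : Kn w i j = 1 ∨ Kn w i j = -1 := by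
  unfold Kn Mn blk
  rw [if_pos (show i / 2 < w by omega)]
  split_ifs <;> simp

theorem Kn_not_real {w i : ℕ} (hw : 1 ≤ w) (hi : 2 * w ≤ i) : ¬ (Kn w i i = 1 ∨ Kn w i i = -1) := by
  unfold Kn Mn blk
  rw [if_neg (by omega), if_pos rfl, if_pos rfl, if_neg (by omega)]
  decide

/-- the permutation moving rows `w, ..., 2w-1` to the end -/
def perm (n w : ℕ) (hw : w ≤ n) : Equiv.Perm (Fin (2 * n)) where
  toFun i := if h1 : i.val < w then i else
    if h2 : i.val + w < 2 * n then ⟨i.val + w, h2⟩ else ⟨i.val + 2 * w - 2 * n, by omega⟩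
  invFun j := if h1 : j.val < w then j else
    if h2 : j.val < 2 * w then ⟨j.val + 2 * n - 2 * w, by omega⟩ else ⟨j.val - w, by omega⟩
  left_inv i := by
    ext
    by_cases h1 : i.val < w
    · simp [h1]
    · by_cases h2 : i.val + w < 2 * n
      · have h3 : ¬ (i.val + w < w) := by omega
        have h4 : ¬ (i.val + w < 2 * w) := by omega
        simp [h1, h2, h4]
      · have h3 : ¬ (i.val + 2 * w - 2 * n < w) := by have := i.isLt; omega
        have h4 : i.val + 2 * w - 2 * n < 2 * w := by have := i.isLt; omega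
        simp only [h1, h2, dite_false, h3, h4, dite_true]
        have := i.isLt
        omega
  right_inv j := by
    ext
    by_cases h1 : j.val < w
    · simp [h1]
    · by_cases h2 : j.val < 2 * w
      · have h3 : ¬ (j.val + 2 * n - 2 * w < w) := by omega
        have h4 : ¬ (j.val + 2 * n - 2 * w + w < 2 * n) := by omega
        simp only [h1, h2, dite_false, h3, h4, dite_true]
        omega
      · have h3 : ¬ (j.val - w < w) := by omega
        have h4 : j.val - w + w < 2 * n := by have := j.isLt; omega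
        simp only [h1, h2, dite_false, h3, h4, dite_true]
        omega

theorem perm_val (n w : ℕ) (hw : w ≤ n) (i : Fin (2 * n)) : (perm n w hw i).val =
    if i.val < w then i.val else if i.val + w < 2 * n then i.val + w
      else i.val + 2 * w - 2 * n := by
  unfold perm
  simp only [Equiv.coe_fn_mk]
  split_ifs <;> rfl

theorem perm_real (n w : ℕ) (hw : w ≤ n) (i : Fin (2 * n)) (h : i.val < w ∨ 2 * n ≤ i.val + w) :
    (perm n w hw i).val < 2 * w := by
  rw [perm_val]
  have := i.isLt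
  split_ifs <;> omega

theorem bordered_perm (n w : ℕ) (hw1 : 1 ≤ w) (hw : w ≤ n) :
    Bordered (fun i j => Kf n w (perm n w hw i) (perm n w hw j)) w := by
  constructor
  · intro i j h
    apply firstOnes
    rw [perm_val, perm_val]
    rcases h with h | h
    · left; rw [if_pos (by omega)]; exact h
    · right; rw [if_pos (by omega)]; exact h
  · intro i j h
    show Kn w _ _ = 1 ∨ Kn w _ _ = -1
    rcases (show (i.val < w ∨ 2 * n ≤ i.val + w) ∨ (j.val < w ∨ 2 * n ≤ j.val + w) by tauto) with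
      h1 | h1
    · exact Kn_real (perm_real n w hw i h1) _
    · rw [Kn_symm]; exact Kn_real (perm_real n w hw j h1) _

theorem isJacket {n : ℕ} (hn : n % 5 = 2) {w : ℕ} (hw1 : 1 ≤ w) (hw : w ≤ n) :
    IsJacket (⊤ : Subgroup (ZMod 5)ˣ) (Kf n w) :=
  ⟨isGBH hn hw1, firstOnes n w, _, ⟨perm n w hw, perm n w hw, fun _ _ => rfl⟩,
    (bordered_perm n w hw1 hw).mono hw1⟩

theorem hasWidth {n w : ℕ} (hw1 : 1 ≤ w) (hw : w ≤ n) : HasWidth (Kf n w) w := by
  refine ⟨hw1, by omega, ⟨_, ⟨perm n w hw, perm n w hw, fun _ _ => rfl⟩,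
    bordered_perm n w hw1 hw⟩, ?_⟩
  rintro m hm ⟨K', ⟨σ, τ, hK⟩, hb⟩
  classical
  have hrow : ∀ i : Fin (2 * n), (i.val < m ∨ 2 * n ≤ i.val + m) → (σ i).val < 2 * w := by
    intro i hi
    by_contra hcon
    have h1 := hb.2 i (τ.symm (σ i)) (by tauto)
    rw [hK, Equiv.apply_symm_apply] at h1
    exact Kn_not_real hw1 (by omega) h1
  have hcard : ((univ : Finset (Fin (2 * n))).filter fun i => i.val < m ∨ 2 * n ≤ i.val + m).card
      = 2 * m := by
    have h1 : ((univ : Finset (Fin (2 * n))).filter fun i => i.val < m ∨ 2 * n ≤ i.val + m).map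
        Fin.valEmbedding = range m ∪ Ico (2 * n - m) (2 * n) := by
      ext x
      simp only [mem_map, mem_filter, mem_univ, true_and, Fin.valEmbedding_apply, mem_union,
        mem_range, mem_Ico]
      constructor
      · rintro ⟨i, hi, rfl⟩
        have := i.isLt
        omega
      · rintro h
        refine ⟨⟨x, by omega⟩, ?_, rfl⟩
        simp only
        omega
    rw [← card_map Fin.valEmbedding, h1, card_union_of_disjoint, card_range, Nat.card_Ico]
    · omega
    · rw [disjoint_left]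
      intro x hx hx'
      rw [mem_range] at hx
      rw [mem_Ico] at hx'
      omega
  have hle : ((univ : Finset (Fin (2 * n))).filter fun i => i.val < m ∨ 2 * n ≤ i.val + m).card
      ≤ (range (2 * w)).card := by
    apply card_le_card_of_injOn (fun i => (σ i).val)
    · intro i hi
      rw [mem_coe, mem_filter] at hi
      rw [mem_coe, mem_range]
      exact hrow i hi.2
    · intro i _ j _ h
      exact σ.injective (Fin.ext h)
  rw [hcard, card_range] at hle
  omega

/-- ratio of two rows is constant off the two blocks -/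
theorem ratio {w : ℕ} (hw : 1 ≤ w) (i i' j : ℕ) (h1 : j / 2 ≠ i / 2) (h2 : j / 2 ≠ i' / 2) :
    Kn w i j * (Kn w i' j)⁻¹ = rr i * (rr i')⁻¹ := by
  rw [Kn_eq hw, Kn_eq hw]
  have e1 : Mn w i j = 1 := by unfold Mn; rw [if_neg (Ne.symm h1)]
  have e2 : Mn w i' j = 1 := by unfold Mn; rw [if_neg (Ne.symm h2)]
  rw [e1, e2, mul_one, mul_one, mul_inv, mul_mul_mul_comm, mul_inv_cancel, mul_one]

theorem card_bad {n : ℕ} (i i' : Fin (2 * n)) :
    ((univ : Finset (Fin (2 * n))).filter fun j => j.val / 2 = i.val / 2 ∨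
      j.val / 2 = i'.val / 2).card ≤ 4 := by
  classical
  have : ((univ : Finset (Fin (2 * n))).filter fun j => j.val / 2 = i.val / 2 ∨
      j.val / 2 = i'.val / 2).card ≤ ({2 * (i.val / 2), 2 * (i.val / 2) + 1,
        2 * (i'.val / 2), 2 * (i'.val / 2) + 1} : Finset ℕ).card := by
    apply card_le_card_of_injOn (fun j => j.val)
    · intro j hj
      rw [mem_coe, mem_filter] at hj
      rw [mem_coe]
      simp only [mem_insert, mem_singleton]
      omega
    · intro a _ b _ h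
      exact Fin.ext h
  exact this.trans card_le_four

theorem fibre_card {n v₁ v₂ : ℕ} (f : Fin (2 * n) ≃ Fin v₁ × Fin v₂) (x : Fin v₁) :
    ((univ : Finset (Fin (2 * n))).filter fun j => (f j).1 = x).card = v₂ := by
  classical
  have h : ((univ : Finset (Fin (2 * n))).filter fun j => (f j).1 = x)
      = (univ : Finset (Fin v₂)).map ⟨fun y => f.symm (x, y), fun a b hab => by
          have := f.symm.injective hab
          exact (Prod.mk.inj this).2⟩ := by
    ext j
    simp only [mem_filter, mem_univ, true_and, mem_map, Function.Embedding.coeFn_mk]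
    constructor
    · intro h
      refine ⟨(f j).2, ?_⟩
      rw [Equiv.symm_apply_eq, ← h]
    · rintro ⟨y, rfl⟩
      rw [Equiv.apply_symm_apply]
  rw [h, card_map, card_univ, Fintype.card_fin]

/-- If `K ≅ K₁ ⊗ K₂` then the second factor has order at most four. -/
theorem order_le {n w v₁ v₂ : ℕ} (hw : 1 ≤ w)
    (K₁ : Fin v₁ → Fin v₁ → (ZMod 5)ˣ) (K₂ : Fin v₂ → Fin v₂ → (ZMod 5)ˣ)
    (h1 : IsGBH (⊤ : Subgroup (ZMod 5)ˣ) K₁)
    (e f : Fin (2 * n) ≃ Fin v₁ × Fin v₂)
    (hK : ∀ i j, Kf n w i j = K₁ (e i).1 (f j).1 * K₂ (e i).2 (f j).2) : v₂ ≤ 4 := by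
  classical
  by_contra hcon
  obtain ⟨hv1, hch, -, ho, -⟩ := h1
  let a : Fin v₁ := ⟨0, by omega⟩
  let a' : Fin v₁ := ⟨1, by omega⟩
  have haa : a ≠ a' := by
    intro h; exact absurd (congrArg Fin.val h) (by simp [a, a'])
  let y : Fin v₂ := ⟨0, by omega⟩
  set i := e.symm (a, y) with hi
  set i' := e.symm (a', y) with hi'
  have hei : e i = (a, y) := by rw [hi, Equiv.apply_symm_apply]
  have hei' : e i' = (a', y) := by rw [hi', Equiv.apply_symm_apply]
  set ε := rr i.val * (rr i'.val)⁻¹ with hε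
  have hconst : ∀ x : Fin v₁, K₁ a x * (K₁ a' x)⁻¹ = ε := by
    intro x
    have hex : ∃ j : Fin (2 * n), (f j).1 = x ∧ j.val / 2 ≠ i.val / 2 ∧
        j.val / 2 ≠ i'.val / 2 := by
      by_contra hno
      push Not at hno
      have hsub : ((univ : Finset (Fin (2 * n))).filter fun j => (f j).1 = x) ⊆
          ((univ : Finset (Fin (2 * n))).filter fun j => j.val / 2 = i.val / 2 ∨
            j.val / 2 = i'.val / 2) := by
        intro j hj
        rw [mem_filter] at hj ⊢
        refine ⟨mem_univ _, ?_⟩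
        by_cases hjj : j.val / 2 = i.val / 2
        · exact Or.inl hjj
        · exact Or.inr (hno j hj.2 hjj)
      have := card_le_card hsub
      rw [fibre_card] at this
      have := card_bad i i'
      omega
    obtain ⟨j, hj, hj1, hj2⟩ := hex
    have h2 := ratio hw i.val i'.val j.val hj1 hj2
    have h3 := hK i j
    have h4 := hK i' j
    unfold Kf at h3 h4
    rw [h3, h4, hei, hei', hj] at h2
    simp only at h2
    rw [mul_inv, mul_mul_mul_comm, mul_inv_cancel, mul_one] at h2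
    exact h2
  have h5 := ho a a'
  rw [if_neg haa] at h5
  have h6 : ∀ x : Fin v₁, (K₁ a x : ZMod 5) * ((K₁ a' x)⁻¹ : (ZMod 5)ˣ) = (ε : ZMod 5) := by
    intro x
    rw [← Units.val_mul, hconst x]
  rw [sum_congr rfl fun x _ => h6 x, sum_const, card_univ, Fintype.card_fin, nsmul_eq_mul] at h5
  have h7 : ((v₁ : ℕ) : ZMod 5) = 0 := by
    have h8 := congrArg (fun z : ZMod 5 => z * ((ε⁻¹ : (ZMod 5)ˣ) : ZMod 5)) h5
    simp only [mul_assoc, Units.mul_inv, mul_one, zero_mul] at h8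
    exact h8
  apply hch
  rw [ZMod.ringChar_zmod_n]
  exact (ZMod.natCast_eq_zero_iff _ _).1 h7

theorem isPrimary {n : ℕ} (hn : n % 5 = 2) (hn9 : 9 ≤ n) {w : ℕ} (hw1 : 1 ≤ w) (hw : w ≤ n) :
    IsPrimary (⊤ : Subgroup (ZMod 5)ˣ) (Kf n w) := by
  refine ⟨isJacket hn hw1 hw, ?_⟩
  rintro v₁ v₂ K₁ K₂ h1 h2 ⟨e, f, hK⟩
  have hb2 := order_le hw1 K₁ K₂ h1.1 e f hK
  have hb1 := order_le hw1 K₂ K₁ h2.1 (e.trans (Equiv.prodComm _ _))
    (f.trans (Equiv.prodComm _ _)) (by
      intro i j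
      rw [hK i j, mul_comm]
      rfl)
  have hcard := Fintype.card_congr e
  rw [Fintype.card_prod, Fintype.card_fin, Fintype.card_fin, Fintype.card_fin] at hcard
  have : v₁ * v₂ ≤ 4 * 4 := Nat.mul_le_mul hb1 hb2
  omega

/-- For every `n ≥ 9`, `n ≡ 2 (mod 5)` and every `1 ≤ w ≤ n`. -/
theorem all_widths {n : ℕ} (hn : n % 5 = 2) (hn9 : 9 ≤ n) {w : ℕ} (hw1 : 1 ≤ w) (hw : w ≤ n) :
    ∃ K : Fin (2 * n) → Fin (2 * n) → (ZMod 5)ˣ,
      IsPrimary (⊤ : Subgroup (ZMod 5)ˣ) K ∧ HasWidth K w :=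
  ⟨Kf n w, isPrimary hn hn9 hw1 hw, hasWidth hw1 hw⟩

theorem propertyF : PropertyF (⊤ : Subgroup (ZMod 5)ˣ) := by
  unfold PropertyF
  rw [Set.infinite_iff_exists_gt]
  intro a
  refine ⟨5 * (a + 2) + 2, ?_, by omega⟩
  intro w hw
  obtain ⟨h1, h2⟩ := hw
  exact all_widths (by omega) (by omega) h1 (by rcases h2 with h | h <;> omega)

end Q155.Jacket
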